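import Pool.Agent.Q153.SpanTwo.Defs
import Pool.Agent.Q153.SpanTwo.Phi

/-!
# Rank-two groups with a two-element signed `s`-spanning set
-/

set_option autoImplicit false

namespace Pool.Agent.Results.MP_b53101_co.Classification

open Pool.Agent.Q153.SpanTwo

/-- **Theorem.** Let `n ≥ 2` and `k ≥ 1`, so that `G = ℤ_n × ℤ_{nk}` is an arbitrary finite abelian
group of rank two. If `n` is odd and divides `s + 1`, then `φ_±(G, [0,s]) = 2` if and only if
`2 k ≤ (2 (s + 1) / n - 1) ^ 2 + 1`. Otherwise put `t = ⌊(2 s + 1) / n⌋`; then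
`φ_±(G, [0,s]) = 2` if and only if `2 k ≤ t ^ 2` and, in case `t = 2 m` is even and `k = 2 m ^ 2 - d`
with `d < m`, the number `d` is even, and divisible by `4` if `m` is odd. -/
theorem result (n k s : ℕ) (hn : 2 ≤ n) (hk : 1 ≤ k) :
    phi (ZMod n × ZMod (n * k)) s = 2 ↔
      (Odd n ∧ n ∣ s + 1 ∧ 2 * k ≤ (2 * ((s + 1) / n) - 1) ^ 2 + 1) ∨
      (¬ (Odd n ∧ n ∣ s + 1) ∧ InK ((2 * s + 1) / n) k) := by
  rw [phi_eq_two_iff hn, spans_iff hn hk]
  unfold Adm
  split_ifs with h <;> tauto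

end Pool.Agent.Results.MP_b53101_co.Classification
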